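import Mathlib
import Pool.Agent.H967G.ZFamily
open Polynomial Matrix
namespace Girth967

theorem graph_existsZR (K : Type) [Field K] [Fintype K] [DecidableEq K] (q : ℕ) (hq : IsPrimePow q)
    (hK : Fintype.card K = q ^ 3) (σ : K →+* K) (hσ : ∀ x, σ x = x ^ q) (i : ℕ) (hi : 1 ≤ i) (δ : ℕ) (hδ1 : 1 ≤ δ) (hδ : δ ≤ q + 1) :
    ∃ (V : Type) (_ : Fintype V) (_ : DecidableEq V) (G : SimpleGraph V) (_ : DecidableRel G.Adj),
      Nonempty V ∧ G.IsRegularOfDegree δ ∧ ((4 * i + 2 : ℕ) : ℕ∞) ≤ G.egirth ∧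
      Even (Fintype.card V) ∧
      (q - 1) * Fintype.card V ≤ 2 * q ^ (3 * i + 1 - (i + 2) / 3) := by
  classical
  have hσ3 : ∀ x, σ (σ (σ x)) = x := by
    intro x
    rw [hσ, hσ, hσ, ← pow_mul, ← pow_mul]
    have : q * (q * q) = Fintype.card K := by rw [hK]; ring
    rw [this, FiniteField.pow_card]
  obtain ⟨hfix, htr⟩ := card_fixed q hq hK σ hσ
  have hiso := card_iso q hq hK σ hσ htr
  obtain ⟨S0, hS0, hSiso0, hSdl0⟩ := exists_conn q hq.two_le σ hσ3 hfix hiso (fun u w hu hw => dl_eq_zero_iff σ hσ3 u w hu hw)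
  obtain ⟨S, hSS, hS⟩ := Finset.exists_subset_card_eq (s := S0) (n := δ) (by rw [hS0]; exact hδ)
  have hSiso := fun u (hu : u ∈ S) => hSiso0 u (hSS hu)
  have hSdl := fun u (hu : u ∈ S) w (hw : w ∈ S) => hSdl0 u (hSS hu) w (hSS hw)
  set r : ℕ := (i + 2) / 3 with hr
  have hr1 : 1 ≤ r := by omega
  have hi3 : i ≤ 3 * r := by omega
  have hi32 : 3 * r ≤ i + 2 := by omega
  set v : K[X] := ∑ j ∈ Finset.range r, X ^ j with hvdef
  have hvσ : v.map σ = v := by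
    rw [hvdef, Polynomial.map_sum]
    simp
  have hvn : X ^ r ∣ (1 - X) * v - 1 := by
    have h2 := mul_neg_geom_sum (X : K[X]) r
    rw [hvdef, h2]
    exact ⟨-1, by ring⟩
  have hSne : S.Nonempty := by rw [← Finset.card_pos, hS]; omega
  obtain ⟨u₀, hu₀⟩ := hSne
  obtain ⟨c, hc⟩ := exists_gen σ hσ3 (X : K[X]) v r hvσ hvn u₀ (hSiso u₀ hu₀)
  set c' : S → HG σ (X : K[X]) r := fun u => c ⟨u.1, hSiso u.1 u.2⟩ with hc'def
  have hc' : ∀ u w : S, (((c' u)⁻¹ * c' w : HG σ (X : K[X]) r) : Matrix (Fin 3) (Fin 3) (RQ (X : K[X]) r))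
      = (v • Em σ u.1 w.1).map (mkQ X r) := fun u w => hc _ _
  have hnormal : (ZG σ hσ3 r i).Normal := ZG_normal σ hσ3 r i
  set c'' : S → (HG σ (X : K[X]) r) ⧸ (ZG σ hσ3 r i) := fun u => QuotientGroup.mk' (ZG σ hσ3 r i) (c' u) with hc''def
  have key : ∀ m > 0, ∀ a b : ℕ → S, (∀ j < m, a j ≠ b j) → (∀ j, j + 1 < m → b j ≠ a (j + 1)) →
      ((List.range m).map (fun j => (c'' (a j))⁻¹ * c'' (b j))).prod = 1 → 2 * i + 1 ≤ m := by
    intro m hm a b h1 h2 hprod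
    have h3 := word_prod σ (X : K[X]) v r c' (fun u => u.1) hc' a b m
    have h4 : ((List.range m).map (fun j => (c'' (a j))⁻¹ * c'' (b j))).prod
        = QuotientGroup.mk' (ZG σ hσ3 r i) (((List.range m).map (fun j => (c' (a j))⁻¹ * c' (b j))).prod) := by
      rw [map_list_prod, List.map_map]
      congr 1
    rw [h4] at hprod
    have h5 : ((List.range m).map (fun j => (c' (a j))⁻¹ * c' (b j))).prod ∈ ZG σ hσ3 r i := by
      rw [← QuotientGroup.ker_mk' (ZG σ hσ3 r i)]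
      exact hprod
    obtain ⟨B, hB⟩ := h5
    have h6 : (v ^ m • Fm σ (fun j => (a j).1) (fun j => (b j).1) m).map (mkQ (X : K[X]) r) = (1 + Zm K ^ i * B).map (mkQ X r) :=
      h3.symm.trans hB
    obtain ⟨B', hB'⟩ := word_ideal σ r i hi3 v hvn _ B m h6
    refine main_wordX σ hσ3 i _ _ m hm (fun j _ => hSiso _ (a j).2) (fun j _ => hSiso _ (b j).2) ?_ ?_ B' hB'
    · intro j hj
      exact hSdl _ (a j).2 _ (b j).2 (fun h => h1 j hj (Subtype.ext h))
    · intro j hj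
      exact hSdl _ (b j).2 _ (a (j + 1)).2 (fun h => h2 j hj (Subtype.ext h))
  have hinj : Function.Injective c'' := by
    intro u w huw
    by_contra hne
    have := key 1 one_pos (fun _ => u) (fun _ => w) (fun j _ => hne) (fun j hj => by omega) (by simp [huw])
    omega
  obtain ⟨hRfin, hRcard⟩ := Rep_count q hq hK σ hσ htr (X : K[X]) monic_X (map_X σ) (by rw [natDegree_X]; exact one_pos) r hr1
  obtain ⟨hfin, hcard⟩ := card_HG_le σ hσ3 (X : K[X]) monic_X (map_X σ) (by rw [natDegree_X]; exact one_pos) r hr1 hRfin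
  have := hfin
  let _ : Fintype ((HG σ (X : K[X]) r) ⧸ (ZG σ hσ3 r i)) := Fintype.ofFinite _
  refine ⟨((HG σ (X : K[X]) r) ⧸ (ZG σ hσ3 r i)) ⊕ ((HG σ (X : K[X]) r) ⧸ (ZG σ hσ3 r i)), inferInstance, inferInstance,
    haar c'', Classical.decRel _, ⟨Sum.inl 1⟩, ?_, ?_, ?_, ?_⟩
  · have := haar_regular c'' hinj
    rw [Fintype.card_coe, hS] at this
    convert this
  · have := haar_egirth c'' hinj (2 * i + 1) key
    have e : 4 * i + 2 = 2 * (2 * i + 1) := by ring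
    rw [e]; exact this
  · rw [Fintype.card_sum]
    exact Even.add_self _
  · rw [Fintype.card_sum, ← Nat.card_eq_fintype_card]
    have h1 := Subgroup.card_eq_card_quotient_mul_card_subgroup (ZG σ hσ3 r i)
    have h2 := card_ZG_ge σ hσ3 r i hr1 hi3 hi32
    rw [hK, ← pow_mul] at h2
    rw [natDegree_X, mul_one] at hRcard
    set x := Nat.card ((HG σ (X : K[X]) r) ⧸ (ZG σ hσ3 r i)) with hx
    have h3 : (q - 1) * x * q ^ (3 * (3 * r - i)) ≤ q ^ (8 * r + 1) := by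
      calc (q - 1) * x * q ^ (3 * (3 * r - i)) ≤ (q - 1) * x * Nat.card (ZG σ hσ3 r i) := Nat.mul_le_mul_left _ h2
        _ = (q - 1) * Nat.card (HG σ (X : K[X]) r) := by rw [h1, hx]; ring
        _ ≤ (q - 1) * (Rep σ (X : K[X]) r).ncard := Nat.mul_le_mul_left _ hcard
        _ ≤ q ^ (8 * r + 1) := hRcard
    have h4 : q ^ (8 * r + 1) = q ^ (3 * i + 1 - r) * q ^ (3 * (3 * r - i)) := by
      rw [← pow_add]; congr 1; omega
    rw [h4] at h3
    have h5 : (q - 1) * x ≤ q ^ (3 * i + 1 - r) := Nat.le_of_mul_le_mul_right h3 (pow_pos hq.pos _)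
    calc (q - 1) * (x + x) = 2 * ((q - 1) * x) := by ring
      _ ≤ 2 * q ^ (3 * i + 1 - r) := by omega

/-- **the z-adic tower**: for every prime power `q` and every `i ≥ 1` -/
theorem familyZR (q : ℕ) (hq : IsPrimePow q) (i : ℕ) (hi : 1 ≤ i) (δ : ℕ) (hδ1 : 1 ≤ δ) (hδ : δ ≤ q + 1) :
    ∃ (V : Type) (_ : Fintype V) (_ : DecidableEq V) (G : SimpleGraph V) (_ : DecidableRel G.Adj),
      Nonempty V ∧ G.IsRegularOfDegree δ ∧ ((4 * i + 2 : ℕ) : ℕ∞) ≤ G.egirth ∧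
      Even (Fintype.card V) ∧
      (q - 1) * Fintype.card V ≤ 2 * q ^ (3 * i + 1 - (i + 2) / 3) := by
  classical
  obtain ⟨p, f, hp, hf, rfl⟩ := (isPrimePow_nat_iff q).mp hq
  have _ : Fact p.Prime := ⟨hp⟩
  let K := GaloisField p (3 * f)
  let _ : Fintype K := Fintype.ofFinite K
  have hK : Fintype.card K = (p ^ f) ^ 3 := by
    rw [← Nat.card_eq_fintype_card, GaloisField.card p (3 * f) (by omega), ← pow_mul, mul_comm]
  have _ : ExpChar K p := ExpChar.prime hp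
  let σ : K →+* K := iterateFrobenius K p f
  have hσ : ∀ x, σ x = x ^ (p ^ f) := fun x => iterateFrobenius_def p f x
  exact graph_existsZR K (p ^ f) hq hK σ hσ i hi δ hδ1 hδ

end Girth967
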